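import Mathlib

/-!
# The Thue-Morse partition does not minimise the next power-sum defect

For every `n ≥ 7` there is a partition `{S, T}` of `{0, …, 2^n - 1}` with equal sums of `i`-th
powers for all `i < n` whose defect `∑ s^n - ∑ t^n` is strictly smaller in absolute value than the
defect of the Thue-Morse partition.  The case `n = 7` is an explicit partition (found by a complete
computer enumeration of the skew-symmetric ones); the step from `n` to `n + 1` is the doubling
`(S, T) ↦ (S ∪ (T + 2^n), T ∪ (S + 2^n))`, which multiplies the absolute value of the defect by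
`(n + 1) * 2^n`, and which also leads from one Thue-Morse partition to the next.
-/

namespace Pool.Agent.Results.MP_f4b4d0_co.NotMinimal

open Finset

/-- `(S, T)` is a partition of `N_n = {0, 1, …, 2^n - 1}`. -/
def IsPart (n : ℕ) (S T : Finset ℕ) : Prop :=
  S ∪ T = range (2 ^ n) ∧ Disjoint S T

/-- Property `P_n`: the sums of `i`-th powers over `S` and over `T` agree for all `i < n`
(in Lean `0 ^ 0 = 1`, so `i = 0` says `|S| = |T|`). -/
def PropP (n : ℕ) (S T : Finset ℕ) : Prop :=
  ∀ i < n, ∑ s ∈ S, s ^ i = ∑ t ∈ T, t ^ i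

/-- The defect `D(S, T) = ∑ s^n - ∑ t^n`. -/
def defect (n : ℕ) (S T : Finset ℕ) : ℤ :=
  ∑ s ∈ S, (s : ℤ) ^ n - ∑ t ∈ T, (t : ℤ) ^ n

/-- The Thue-Morse sequence: the parity of the number of ones in the binary expansion. -/
def thueMorse (k : ℕ) : ℕ := (Nat.digits 2 k).count 1 % 2

/-- `S_TM = {k ∈ N_n : t_k = 0}`. -/
def STM (n : ℕ) : Finset ℕ := (range (2 ^ n)).filter (fun k => thueMorse k = 0)

/-- `T_TM = {k ∈ N_n : t_k = 1}`. -/
def TTM (n : ℕ) : Finset ℕ := (range (2 ^ n)).filter (fun k => thueMorse k = 1)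

/-! ## Moments -/

/-- The `m`-th signed moment of the pair `(S, T)`. -/
def mom (m : ℕ) (S T : Finset ℕ) : ℤ := ∑ s ∈ S, (s : ℤ) ^ m - ∑ t ∈ T, (t : ℤ) ^ m

lemma propP_iff (n : ℕ) (S T : Finset ℕ) : PropP n S T ↔ ∀ i < n, mom i S T = 0 := by
  unfold PropP mom
  refine forall₂_congr fun i _ => ?_
  rw [sub_eq_zero]
  constructor
  · intro h
    have := congrArg (fun x : ℕ => (x : ℤ)) h
    push_cast at this
    exact this
  · intro h
    exact_mod_cast h

/-- Translate of a finite set of naturals. -/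
def shift (N : ℕ) (S : Finset ℕ) : Finset ℕ := S.map (addRightEmbedding N)

lemma mem_shift {N : ℕ} {S : Finset ℕ} {x : ℕ} : x ∈ shift N S ↔ ∃ y ∈ S, y + N = x := by
  simp [shift]

lemma sum_shift (N : ℕ) (S : Finset ℕ) (f : ℕ → ℤ) :
    ∑ x ∈ shift N S, f x = ∑ x ∈ S, f (x + N) := by
  simp [shift]

lemma disjoint_shift {n : ℕ} {S T : Finset ℕ} (hS : S ⊆ range (2 ^ n)) :
    Disjoint S (shift (2 ^ n) T) := by
  rw [Finset.disjoint_left]
  intro x hx hx'
  obtain ⟨y, _, rfl⟩ := mem_shift.1 hx'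
  have := mem_range.1 (hS hx)
  omega

lemma mom_double (n m : ℕ) (S T : Finset ℕ) (h : IsPart n S T) :
    mom m (S ∪ shift (2 ^ n) T) (T ∪ shift (2 ^ n) S) =
      - ∑ j ∈ range m, (m.choose j : ℤ) * (2 ^ n : ℤ) ^ (m - j) * mom j S T := by
  have hS : S ⊆ range (2 ^ n) := h.1 ▸ subset_union_left
  have hT : T ⊆ range (2 ^ n) := h.1 ▸ subset_union_right
  have e : ∀ A : Finset ℕ, ∑ x ∈ A, (((x + 2 ^ n : ℕ) : ℤ)) ^ m =
      ∑ x ∈ A, (x : ℤ) ^ m +
        ∑ j ∈ range m, (m.choose j : ℤ) * (2 ^ n : ℤ) ^ (m - j) * ∑ x ∈ A, (x : ℤ) ^ j := by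
    intro A
    have : ∀ x : ℕ, (((x + 2 ^ n : ℕ) : ℤ)) ^ m =
        (x : ℤ) ^ m + ∑ j ∈ range m, (m.choose j : ℤ) * (2 ^ n : ℤ) ^ (m - j) * (x : ℤ) ^ j := by
      intro x
      push_cast
      rw [add_pow, sum_range_succ]
      simp only [Nat.sub_self, pow_zero, Nat.choose_self, Nat.cast_one, mul_one]
      rw [add_comm]
      congr 1
      exact sum_congr rfl fun j _ => by ring
    rw [sum_congr rfl fun x _ => this x, sum_add_distrib, sum_comm]
    congr 1
    exact sum_congr rfl fun j _ => by rw [mul_sum]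
  unfold mom
  rw [sum_union (disjoint_shift hS), sum_union (disjoint_shift hT), sum_shift, sum_shift, e S, e T]
  simp only [mul_sub, sum_sub_distrib]
  ring

lemma isPart_double (n : ℕ) (S T : Finset ℕ) (h : IsPart n S T) :
    IsPart (n + 1) (S ∪ shift (2 ^ n) T) (T ∪ shift (2 ^ n) S) := by
  have hS : S ⊆ range (2 ^ n) := h.1 ▸ subset_union_left
  have hT : T ⊆ range (2 ^ n) := h.1 ▸ subset_union_right
  obtain ⟨hu, hd⟩ := h
  constructor
  · ext x
    have hx : ∀ y, y ∈ S ∨ y ∈ T ↔ y < 2 ^ n := by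
      intro y
      rw [← mem_union, hu, mem_range]
    simp only [mem_union, mem_shift, mem_range, pow_succ]
    constructor
    · rintro ((h1 | ⟨y, hy, rfl⟩) | (h1 | ⟨y, hy, rfl⟩))
      · have := (hx x).1 (Or.inl h1); omega
      · have := (hx y).1 (Or.inr hy); omega
      · have := (hx x).1 (Or.inr h1); omega
      · have := (hx y).1 (Or.inl hy); omega
    · intro hlt
      by_cases hc : x < 2 ^ n
      · rcases (hx x).2 hc with h1 | h1
        · exact Or.inl (Or.inl h1)
        · exact Or.inr (Or.inl h1)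
      · rcases (hx (x - 2 ^ n)).2 (by omega) with h1 | h1
        · exact Or.inr (Or.inr ⟨_, h1, by omega⟩)
        · exact Or.inl (Or.inr ⟨_, h1, by omega⟩)
  · rw [disjoint_union_left, disjoint_union_right, disjoint_union_right]
    refine ⟨⟨hd, disjoint_shift hS⟩, (disjoint_shift hT).symm, ?_⟩
    rw [Finset.disjoint_left]
    intro x hx hx'
    obtain ⟨y, hy, rfl⟩ := mem_shift.1 hx
    obtain ⟨z, hz, hzz⟩ := mem_shift.1 hx'
    have : z = y := by omega
    subst this
    exact Finset.disjoint_left.1 hd hz hy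

lemma propP_double (n : ℕ) (S T : Finset ℕ) (h : IsPart n S T) (hP : PropP n S T) :
    PropP (n + 1) (S ∪ shift (2 ^ n) T) (T ∪ shift (2 ^ n) S) := by
  rw [propP_iff] at hP ⊢
  intro i hi
  rw [mom_double n i S T h, neg_eq_zero]
  refine sum_eq_zero fun j hj => ?_
  rw [hP j (by have := mem_range.1 hj; omega), mul_zero]

lemma defect_double (n : ℕ) (S T : Finset ℕ) (h : IsPart n S T) (hP : PropP n S T) :
    defect (n + 1) (S ∪ shift (2 ^ n) T) (T ∪ shift (2 ^ n) S) =
      - (((n + 1 : ℕ) : ℤ) * 2 ^ n * defect n S T) := by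
  rw [propP_iff] at hP
  have := mom_double n (n + 1) S T h
  unfold mom at this
  unfold defect
  rw [this, sum_range_succ, sum_eq_zero]
  · simp
  · intro j hj
    have h0 := hP j (mem_range.1 hj)
    unfold mom at h0
    rw [h0, mul_zero]

/-! ## The Thue-Morse partition -/

lemma thueMorse_lt (k : ℕ) : thueMorse k < 2 := Nat.mod_lt _ (by norm_num)

lemma count_rec (k : ℕ) :
    (Nat.digits 2 k).count 1 = (Nat.digits 2 (k / 2)).count 1 + k % 2 := by
  rcases Nat.eq_zero_or_pos k with rfl | hk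
  · simp
  · rw [Nat.digits_def' (by norm_num) hk, List.count_cons]
    rcases Nat.mod_two_eq_zero_or_one k with h | h <;> simp [h]

lemma count_add_two_pow (n : ℕ) : ∀ k < 2 ^ n,
    (Nat.digits 2 (k + 2 ^ n)).count 1 = (Nat.digits 2 k).count 1 + 1 := by
  induction n with
  | zero =>
    intro k hk
    have : k = 0 := by simpa using hk
    subst this
    simp
  | succ n ih =>
    intro k hk
    rw [count_rec (k + 2 ^ (n + 1)), count_rec k]
    have h1 : (k + 2 ^ (n + 1)) / 2 = k / 2 + 2 ^ n := by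
      rw [pow_succ]; omega
    have h2 : (k + 2 ^ (n + 1)) % 2 = k % 2 := by
      rw [pow_succ]; omega
    rw [h1, h2, ih (k / 2) (by rw [pow_succ] at hk; omega)]
    ring

lemma thueMorse_add (n k : ℕ) (hk : k < 2 ^ n) :
    thueMorse (k + 2 ^ n) = 1 - thueMorse k := by
  unfold thueMorse
  rw [count_add_two_pow n k hk]
  omega

lemma isPart_TM (n : ℕ) : IsPart n (STM n) (TTM n) := by
  constructor
  · ext x
    simp only [STM, TTM, mem_union, mem_filter]
    have := thueMorse_lt x
    constructor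
    · rintro (h | h) <;> exact h.1
    · intro h
      have : thueMorse x = 0 ∨ thueMorse x = 1 := by omega
      rcases this with h' | h'
      · exact Or.inl ⟨h, h'⟩
      · exact Or.inr ⟨h, h'⟩
  · rw [Finset.disjoint_left]
    intro x hx hx'
    simp only [STM, TTM, mem_filter] at hx hx'
    omega

lemma STM_succ (n : ℕ) : STM (n + 1) = STM n ∪ shift (2 ^ n) (TTM n) := by
  ext x
  simp only [STM, TTM, mem_union, mem_filter, mem_shift, mem_range, pow_succ]
  constructor
  · rintro ⟨h1, h2⟩
    by_cases hc : x < 2 ^ n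
    · exact Or.inl ⟨hc, h2⟩
    · right
      have hx : x - 2 ^ n < 2 ^ n := by omega
      have := thueMorse_add n (x - 2 ^ n) hx
      have hxx : x - 2 ^ n + 2 ^ n = x := by omega
      rw [hxx] at this
      have := thueMorse_lt (x - 2 ^ n)
      exact ⟨x - 2 ^ n, ⟨hx, by omega⟩, hxx⟩
  · rintro (⟨h1, h2⟩ | ⟨y, ⟨h1, h2⟩, rfl⟩)
    · exact ⟨by omega, h2⟩
    · exact ⟨by omega, by rw [thueMorse_add n y h1, h2]⟩

lemma TTM_succ (n : ℕ) : TTM (n + 1) = TTM n ∪ shift (2 ^ n) (STM n) := by
  ext x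
  simp only [STM, TTM, mem_union, mem_filter, mem_shift, mem_range, pow_succ]
  constructor
  · rintro ⟨h1, h2⟩
    by_cases hc : x < 2 ^ n
    · exact Or.inl ⟨hc, h2⟩
    · right
      have hx : x - 2 ^ n < 2 ^ n := by omega
      have := thueMorse_add n (x - 2 ^ n) hx
      have hxx : x - 2 ^ n + 2 ^ n = x := by omega
      rw [hxx] at this
      have := thueMorse_lt (x - 2 ^ n)
      exact ⟨x - 2 ^ n, ⟨hx, by omega⟩, hxx⟩
  · rintro (⟨h1, h2⟩ | ⟨y, ⟨h1, h2⟩, rfl⟩)
    · exact ⟨by omega, h2⟩
    · exact ⟨by omega, by rw [thueMorse_add n y h1, h2]⟩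

/-- The Thue-Morse partition has property `P_n` (Prouhet). -/
lemma propP_TM (n : ℕ) : PropP n (STM n) (TTM n) := by
  induction n with
  | zero => intro i hi; omega
  | succ n ih =>
    rw [STM_succ, TTM_succ]
    exact propP_double n _ _ (isPart_TM n) ih

lemma defect_TM_succ (n : ℕ) : defect (n + 1) (STM (n + 1)) (TTM (n + 1)) =
    - (((n + 1 : ℕ) : ℤ) * 2 ^ n * defect n (STM n) (TTM n)) := by
  rw [STM_succ, TTM_succ]
  exact defect_double n _ _ (isPart_TM n) (propP_TM n)

lemma defect_TM_zero : defect 0 (STM 0) (TTM 0) = 1 := by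
  have h1 : STM 0 = {0} := by
    ext x; simp only [STM, thueMorse, mem_filter, mem_range, mem_singleton, pow_zero]
    constructor
    · rintro ⟨h, _⟩; omega
    · rintro rfl; simp
  have h2 : TTM 0 = ∅ := by
    ext x; simp only [TTM, thueMorse, mem_filter, mem_range, pow_zero]
    constructor
    · rintro ⟨h, h'⟩
      have : x = 0 := by omega
      subst this
      simp at h'
    · intro h; simp at h
  simp [defect, h1, h2]

lemma defect_TM_seven : defect 7 (STM 7) (TTM 7) = -10569646080 := by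
  rw [defect_TM_succ, defect_TM_succ, defect_TM_succ, defect_TM_succ, defect_TM_succ,
    defect_TM_succ, defect_TM_succ, defect_TM_zero]
  norm_num

/-! ## The explicit partition for `n = 7` -/

/-- The set `S` for `n = 7`, as the set of ones of a 128-bit number. -/
def S7 : Finset ℕ :=
  (range 128).filter (fun k => Nat.testBit 0x696a565c36b24da69a4db293c595a969 k = true)

/-- The complement of `S7` in `{0, …, 127}`. -/
def T7 : Finset ℕ :=
  (range 128).filter (fun k => Nat.testBit 0x696a565c36b24da69a4db293c595a969 k = false)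

lemma isPart_seven : IsPart 7 S7 T7 := by
  unfold IsPart
  decide +kernel

lemma propP_seven : PropP 7 S7 T7 := by
  unfold PropP
  decide +kernel

lemma defect_seven : defect 7 S7 T7 = -5489326080 := by
  unfold defect
  decide +kernel

/-- For every `n ≥ 7` some partition of `{0, …, 2^n - 1}` with property `P_n` has a defect that is
strictly smaller in absolute value than that of the Thue-Morse partition. -/
theorem result : ∀ n : ℕ, 7 ≤ n → ∃ S T : Finset ℕ, IsPart n S T ∧ PropP n S T ∧
    |defect n S T| < |defect n (STM n) (TTM n)| := by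
  intro n hn
  induction n, hn using Nat.le_induction with
  | base =>
    refine ⟨S7, T7, isPart_seven, propP_seven, ?_⟩
    rw [defect_seven, defect_TM_seven]
    norm_num
  | succ n hn ih =>
    obtain ⟨S, T, hI, hP, hD⟩ := ih
    refine ⟨_, _, isPart_double n S T hI, propP_double n S T hI hP, ?_⟩
    rw [defect_double n S T hI hP, defect_TM_succ, abs_neg, abs_neg,
      abs_mul (((n + 1 : ℕ) : ℤ) * 2 ^ n) (defect n S T),
      abs_mul (((n + 1 : ℕ) : ℤ) * 2 ^ n) (defect n (STM n) (TTM n))]
    have hpos : 0 < |(((n + 1 : ℕ) : ℤ) * 2 ^ n)| := by positivity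
    exact mul_lt_mul_of_pos_left hD hpos

end Pool.Agent.Results.MP_f4b4d0_co.NotMinimal
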